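import Mathlib
import Pool.Agent.Helper19.ConjDefs
import Pool.Agent.Helper19.ConjProof

/-! The extreme points of the convex hull of the conjugate degree sequences of graphs. -/

namespace Pool.Agent.Results.MP_1867d3_co.ExtremePoints

open Pool.Agent.Helper19.ConjHull

open Classical in
/-- **The extreme points of `C_n` and the graphs that realise them.**
For `n` even the extreme points of `C_n` are exactly the points `(n, ..., n, 0, ..., 0)` with
`i` entries `n`, for `0 ≤ i ≤ n - 1`.  For `n` odd they are exactly these points with `i` even,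
together with the points whose `k`-th entry is `(n - 1) [k ≤ i] + [k ≤ j]`, with `i` odd and
`j` even, `0 ≤ i, j ≤ n - 1`.  A graph `G` on `n` vertices has its conjugate degree sequence at
an extreme point of `C_n` if and only if `G` is regular, or `n` is odd and all vertices of `G`
but one have the same odd degree. -/
theorem result (n : ℕ) (hn : 1 ≤ n) :
    (Even n → (hullC n).extremePoints ℝ =
      {x | ∃ i < n, x = fun k : Fin n => if (k : ℕ) < i then (n : ℝ) else 0}) ∧
    (Odd n → (hullC n).extremePoints ℝ =
      {x | ∃ i < n, Even i ∧ x = fun k : Fin n => if (k : ℕ) < i then (n : ℝ) else 0} ∪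
      {x | ∃ i < n, ∃ j < n, Odd i ∧ Even j ∧
        x = fun k : Fin n => (if (k : ℕ) < i then (n : ℝ) - 1 else 0) +
          (if (k : ℕ) < j then 1 else 0)}) ∧
    (∀ G : SimpleGraph (Fin n), conjSeq G ∈ (hullC n).extremePoints ℝ ↔
      (∃ i, ∀ v, G.degree v = i) ∨
        (Odd n ∧ ∃ i, Odd i ∧ ∃ u, ∀ v, v ≠ u → G.degree v = i)) := by
  exact main n hn

end Pool.Agent.Results.MP_1867d3_co.ExtremePoints
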